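import Pool.Agent.U985.UW.Num

/-! Weight two: from the level to the data. -/

set_option autoImplicit false

namespace Pool.Agent.U985.UW

open NumberField IsDedekindDomain
open Pool.Agent.N846.DU
open Pool.Agent.U985.UT (II II_tendsto)

/-- the product of the primes dividing `𝔫` -/
theorem prod_level {K : Type} [Field K] [NumberField K] {𝔫 : Ideal (𝓞 K)} (h0 : 𝔫 ≠ ⊥)
    {S : Finset (HeightOneSpectrum (𝓞 K))} (hS : ∀ v ∈ S, v.asIdeal ∣ 𝔫) :
    ∏ v ∈ S, Nv v ≤ (Ideal.absNorm 𝔫 : ℝ) := by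
  classical
  have h1 : ∏ v ∈ S, v.asIdeal ∣ 𝔫 := by
    refine Finset.prod_dvd_of_isRelPrime (fun v _ w _ hvw => ?_) hS
    have hne : v.asIdeal ≠ w.asIdeal := fun h => hvw (HeightOneSpectrum.ext h)
    change IsRelPrime v.asIdeal w.asIdeal
    rw [v.irreducible.isRelPrime_iff_not_dvd]
    intro hd
    exact hne (associated_iff_eq.1 (v.irreducible.associated_of_dvd w.irreducible hd))
  have h2 : Ideal.absNorm (∏ v ∈ S, v.asIdeal) ∣ Ideal.absNorm 𝔫 := by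
    obtain ⟨c, hc⟩ := h1
    rw [hc, map_mul]
    exact Dvd.intro _ rfl
  have h3 : Ideal.absNorm 𝔫 ≠ 0 := by
    rw [Ne, Ideal.absNorm_eq_zero_iff]
    exact h0
  have h4 := Nat.le_of_dvd (Nat.pos_of_ne_zero h3) h2
  have h5 : (Ideal.absNorm (∏ v ∈ S, v.asIdeal) : ℝ) = ∏ v ∈ S, Nv v := by
    rw [map_prod]
    push_cast
    rfl
  rw [← h5]
  exact_mod_cast h4

theorem one_le_absNorm {K : Type} [Field K] [NumberField K] {𝔫 : Ideal (𝓞 K)} (h0 : 𝔫 ≠ ⊥) :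
    1 ≤ (Ideal.absNorm 𝔫 : ℝ) := by
  have h3 : Ideal.absNorm 𝔫 ≠ 0 := by
    rw [Ne, Ideal.absNorm_eq_zero_iff]
    exact h0
  exact_mod_cast Nat.pos_of_ne_zero h3

theorem one_le_discr (K : Type) [Field K] [NumberField K] : 1 ≤ |(discr K : ℝ)| := by
  have h := NumberField.discr_ne_zero K
  have h1 : (1 : ℤ) ≤ |discr K| := Int.one_le_abs h
  exact_mod_cast h1

/-- the constant -/
noncomputable def BK (K : Type) [Field K] [NumberField K] : ℝ :=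
  |(discr K : ℝ)| ^ 25 * 6 ^ (25 * Module.finrank ℚ K)

theorem one_le_BK (K : Type) [Field K] [NumberField K] : 1 ≤ BK K :=
  one_le_mul_of_one_le_of_one_le (one_le_pow₀ (one_le_discr K)) (one_le_pow₀ (by norm_num))

theorem toDat {K : Type} [Field K] [NumberField K] {𝔫 : Ideal (𝓞 K)} (h0 : 𝔫 ≠ ⊥)
    {S : Finset (HeightOneSpectrum (𝓞 K))} (hS : ∀ v ∈ S, v.asIdeal ∣ 𝔫)
    {α : HeightOneSpectrum (𝓞 K) → Fin 2 → ℂ} {u : Fin 5 → VX K → ℂ} {q : Fin 5 → Fin 5 → ℝ}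
    {κ : ∀ i j : Fin 5, Fin (((i : ℕ) + 1) * ((j : ℕ) + 1) * Module.finrank ℚ K) → ℂ}
    (hrep : ∀ k : Fin 5, Rep ((k : ℕ) + 1) S (fun v => symP k (α v)) (u k))
    (hrs : ∀ i j : Fin 5, RS (u i) (u j) (q i j) (κ i j) (if i = j then 1 else 0))
    (hq : ∀ i j : Fin 5, q i j ≤ |(discr K : ℝ)| ^ (((i : ℕ) + 1) * ((j : ℕ) + 1)) *
      (Ideal.absNorm 𝔫 : ℝ) ^ (max (i : ℕ) j * (min (i : ℕ) j + 1)))
    (hκ : ∀ i j l, ‖κ i j l‖ ≤ 5) :
    Dat (25 * Module.finrank ℚ K) (BK K) S α (Ideal.absNorm 𝔫 : ℝ) := by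
  refine ⟨one_le_absNorm h0, prod_level h0 hS, _, u, q, κ, fun i j => ?_, hrep, hrs, fun i j => ?_⟩
  · have h1 : ((i : ℕ) + 1) * ((j : ℕ) + 1) ≤ 25 := by
      have hi := i.2
      have hj := j.2
      nlinarith
    exact Nat.mul_le_mul_right _ h1
  · have h1 : ((i : ℕ) + 1) * ((j : ℕ) + 1) ≤ 25 := by
      have hi := i.2
      have hj := j.2
      nlinarith
    have h2 : ∏ l, (1 + ‖κ i j l‖) ≤ 6 ^ (25 * Module.finrank ℚ K) := by
      calc ∏ l, (1 + ‖κ i j l‖) ≤ ∏ _l : Fin (((i : ℕ) + 1) * ((j : ℕ) + 1) * Module.finrank ℚ K), (6 : ℝ) :=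
            Finset.prod_le_prod (fun l _ => by positivity) fun l _ => by linarith [hκ i j l]
        _ = 6 ^ (((i : ℕ) + 1) * ((j : ℕ) + 1) * Module.finrank ℚ K) := by simp
        _ ≤ _ := pow_le_pow_right₀ (by norm_num) (Nat.mul_le_mul_right _ h1)
    have h3 : |(discr K : ℝ)| ^ (((i : ℕ) + 1) * ((j : ℕ) + 1)) ≤ |(discr K : ℝ)| ^ 25 :=
      pow_le_pow_right₀ (one_le_discr K) h1
    have hN := one_le_absNorm h0
    calc q i j * ∏ l, (1 + ‖κ i j l‖) ≤ (|(discr K : ℝ)| ^ 25 *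
          (Ideal.absNorm 𝔫 : ℝ) ^ (max (i : ℕ) j * (min (i : ℕ) j + 1))) * 6 ^ (25 * Module.finrank ℚ K) := by
          refine mul_le_mul ((hq i j).trans (mul_le_mul_of_nonneg_right h3 (by positivity))) h2
            (Finset.prod_nonneg fun l _ => by positivity) (by positivity)
      _ = _ := by
          unfold BK
          ring

open scoped Classical in
/-- lower bound for the mass of the places where the bound holds -/
theorem good_one (K : Type) [Field K] [NumberField K] (N₀ : ℕ) {B ε : ℝ} (hB : 1 ≤ B) (hε : 0 < ε) :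
    ∃ A : ℝ, 0 ≤ A ∧ ∀ (S : Finset (HeightOneSpectrum (𝓞 K))) (α : HeightOneSpectrum (𝓞 K) → Fin 2 → ℂ) (Q : ℝ),
      Dat N₀ B S α Q → ∀ s : ℝ, 1 ≤ s → ∃ G : Finset (HeightOneSpectrum (𝓞 K)),
      (∀ v ∈ G, v ∉ S ∧ ‖∑ i, α v i‖ < 2) ∧
      (34 / 35 - ε) * (√(Real.pi / 2) * s) - (69 / 350 + ε) * Real.log Q - A ≤ ∑ v ∈ G, wt s v := by
  obtain ⟨A₁, hA1, h1⟩ := bad_one K N₀ hB (show 0 < ε / 3 by positivity)
  obtain ⟨A₂, hA2, h2⟩ := mass_low K (show 0 < ε / 3 by positivity)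
  refine ⟨A₁ + A₂, by positivity, fun S α Q hD s hs => ?_⟩
  have hκ0 : 0 < √(Real.pi / 2) := Real.sqrt_pos.2 (by positivity)
  have hlim : ∀ᶠ x : ℝ in Filter.atTop, (1 - ε / 3) * √(Real.pi / 2) ≤ II x := by
    refine II_tendsto.eventually (Ici_mem_nhds ?_)
    nlinarith
  obtain ⟨x, hx1, hx2⟩ := (hlim.and (Filter.eventually_ge_atTop (0 : ℝ))).exists
  have h3 := h2 S Q hD.prod_le hD.one_le s x (by linarith) hx2
  have h4 := Finset.sum_filter_add_sum_filter_not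
    ((Pool.Agent.N753.LS.PP K (Real.exp (x * s))).filter fun v => v ∉ S) (fun v => ‖∑ i, α v i‖ < 2) (fun v => wt s v)
  have h5 := h1 S α Q hD s hs
    (((Pool.Agent.N753.LS.PP K (Real.exp (x * s))).filter fun v => v ∉ S).filter fun v => ¬ ‖∑ i, α v i‖ < 2)
    fun v hv => ⟨(Finset.mem_filter.1 (Finset.mem_filter.1 hv).1).2, not_lt.1 (Finset.mem_filter.1 hv).2⟩
  refine ⟨((Pool.Agent.N753.LS.PP K (Real.exp (x * s))).filter fun v => v ∉ S).filter fun v => ‖∑ i, α v i‖ < 2,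
    fun v hv => ⟨(Finset.mem_filter.1 (Finset.mem_filter.1 hv).1).2, (Finset.mem_filter.1 hv).2⟩, ?_⟩
  have h6 : s * ((1 - ε / 3) * √(Real.pi / 2)) ≤ s * II x := mul_le_mul_of_nonneg_left hx1 (by linarith)
  have h7 : 0 ≤ ε * Real.log Q := mul_nonneg hε.le (Real.log_nonneg hD.one_le)
  linarith

end Pool.Agent.U985.UW
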