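import Pool.Agent.U985.UW.One

/-! Several representations of `GL_2`: places where few of them are not tempered. -/

set_option autoImplicit false

namespace Pool.Agent.U985.UW

open MeasureTheory Filter Topology NumberField IsDedekindDomain
open Pool.Agent.N846.DU
open Pool.Agent.U985.UT (II II_scale II_tendsto)
open Pool.Agent.N753.LS (PP mem_PP)
open Pool.Agent.U985.UK (mem_PP' count_of_massK')

theorem one_le_Nv {K : Type} [Field K] [NumberField K] (v : HeightOneSpectrum (𝓞 K)) : 1 ≤ Nv v := by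
  have h := Pool.Agent.U828.DU.D.log_Nv_pos v
  by_contra h1
  have := Real.log_neg (Pool.Agent.U828.DU.D.Nv_pos v) (not_le.1 h1)
  linarith

open scoped Classical in
theorem prod_union {K : Type} [Field K] [NumberField K] {r : ℕ} (S : Fin r → Finset (HeightOneSpectrum (𝓞 K)))
    (Q : Fin r → ℝ) (hQ : ∀ i, 1 ≤ Q i) (h : ∀ i, ∏ v ∈ S i, Nv v ≤ Q i) :
    ∏ v ∈ Finset.univ.biUnion S, Nv v ≤ ∏ i, Q i := by
  have hQ0 : 0 < ∏ i, Q i := Finset.prod_pos fun i _ => by linarith [hQ i]
  have hN : ∀ v : HeightOneSpectrum (𝓞 K), 0 < Nv v := Pool.Agent.U828.DU.D.Nv_pos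
  rw [← Real.log_le_log_iff (Finset.prod_pos fun v _ => hN v) hQ0, Real.log_prod fun v _ => (hN v).ne',
    Real.log_prod fun i _ => by linarith [hQ i]]
  calc ∑ v ∈ Finset.univ.biUnion S, Real.log (Nv v) ≤
      ∑ v ∈ Finset.univ.biUnion S, ∑ i, (if v ∈ S i then Real.log (Nv v) else 0) := by
        refine Finset.sum_le_sum fun v hv => ?_
        obtain ⟨i, _, hi⟩ := Finset.mem_biUnion.1 hv
        refine le_trans (le_of_eq ?_) (Finset.single_le_sum
          (f := fun i => if v ∈ S i then Real.log (Nv v) else 0) (fun j _ => ?_) (Finset.mem_univ i))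
        · simp [hi]
        · split_ifs
          · exact Real.log_nonneg (one_le_Nv v)
          · exact le_rfl
    _ = ∑ i, ∑ v ∈ S i, Real.log (Nv v) := by
        rw [Finset.sum_comm]
        refine Finset.sum_congr rfl fun i _ => ?_
        rw [← Finset.sum_filter]
        congr 1
        ext v
        simp only [Finset.mem_filter, Finset.mem_biUnion, Finset.mem_univ, true_and]
        exact ⟨fun h => h.2, fun h => ⟨⟨i, h⟩, h⟩⟩
    _ ≤ ∑ i, Real.log (Q i) := by
        refine Finset.sum_le_sum fun i _ => ?_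
        rw [← Real.log_prod fun v _ => (hN v).ne']
        exact Real.log_le_log (Finset.prod_pos fun v _ => hN v) (h i)

open scoped Classical in
/-- **places where fewer than `m` of the `r` representations are not tempered** -/
theorem many (K : Type) [Field K] [NumberField K] (N₀ r m : ℕ) {B x c : ℝ} (hB : 1 ≤ B) (hm : 1 ≤ m) (hx : 0 < x)
    (hD : 0 < m * II x - r * √(Real.pi / 2) / 35)
    (hc : 69 / 350 * x / (m * II x - r * √(Real.pi / 2) / 35) < c) :
    ∃ A δ : ℝ, 0 < A ∧ 0 < δ ∧ ∀ (S : Fin r → Finset (HeightOneSpectrum (𝓞 K)))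
      (α : Fin r → HeightOneSpectrum (𝓞 K) → Fin 2 → ℂ) (Q : Fin r → ℝ),
      (∀ i, Dat N₀ B (S i) (α i) (Q i)) → ∀ P : ℝ, A * (∏ i, Q i) ^ c ≤ P →
        ∃ T : Finset (HeightOneSpectrum (𝓞 K)), P ^ δ ≤ (T.card : ℝ) ∧
          ∀ v ∈ T, Nv v ≤ P ∧ (∀ i, v ∉ S i) ∧
            (Finset.univ.filter fun i => 2 ≤ ‖∑ j, α i v j‖).card < m := by
  set κ₀ : ℝ := √(Real.pi / 2) with hκ₀
  have hκ0 : 0 < κ₀ := Real.sqrt_pos.2 (by positivity)
  set D : ℝ := m * II x - r * κ₀ / 35 with hDd
  have hm0 : (0 : ℝ) < m := by exact_mod_cast hm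
  have hc0 : 0 < c := lt_of_le_of_lt (by positivity) hc
  have hgap : 0 < D - 69 / 350 * x / c := by
    rw [div_lt_iff₀ hD] at hc
    rw [sub_pos, div_lt_iff₀ hc0]
    linarith
  set gap : ℝ := D - 69 / 350 * x / c with hgapd
  set W : ℝ := (m + r) * κ₀ + (1 + m) * (x / c) with hW
  have hW0 : 0 < W := by positivity
  set ε : ℝ := gap / (2 * W) with hε
  have hε0 : 0 < ε := by positivity
  have hεW : ε * W = gap / 2 := by
    rw [hε]
    field_simp
  obtain ⟨A₁, hA1, hB1⟩ := bad_one K N₀ hB hε0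
  obtain ⟨A₀, hA0, hM⟩ := mass_low K hε0
  have ha0 : 0 < gap / (2 * x * m) := by positivity
  obtain ⟨P₀, δ, hP01, hδ, hP0⟩ := count_of_massK' K ha0 ((m * A₀ + r * A₁) / m)
  refine ⟨max P₀ (Real.exp x), δ, lt_of_lt_of_le (Real.exp_pos x) (le_max_right _ _), hδ,
    fun S α Q hDat P hP => ?_⟩
  have hQ1 : ∀ i, 1 ≤ Q i := fun i => (hDat i).one_le
  set Q' : ℝ := ∏ i, Q i with hQ'
  have hQ'1 : 1 ≤ Q' := Finset.one_le_prod fun i _ => hQ1 i
  have hQ'0 : 0 < Q' := by linarith
  have hlQ : Real.log Q' = ∑ i, Real.log (Q i) := Real.log_prod fun i _ => by linarith [hQ1 i]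
  have hQc : 1 ≤ Q' ^ c := Real.one_le_rpow hQ'1 hc0.le
  have hAA0 : 0 < max P₀ (Real.exp x) := lt_of_lt_of_le (Real.exp_pos x) (le_max_right _ _)
  have hPA : max P₀ (Real.exp x) ≤ P := (le_mul_of_one_le_right hAA0.le hQc).trans hP
  have hP1 : 1 ≤ P := hP01.trans ((le_max_left _ _).trans hPA)
  have hPpos : 0 < P := by linarith
  have hlPx : x ≤ Real.log P := by
    rw [← Real.log_exp x]
    exact Real.log_le_log (Real.exp_pos _) ((le_max_right _ _).trans hPA)
  have hlQP : c * Real.log Q' ≤ Real.log P := by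
    rw [← Real.log_rpow hQ'0]
    refine Real.log_le_log (by positivity) ((le_mul_of_one_le_left (by positivity) ?_).trans hP)
    exact hP01.trans (le_max_left _ _)
  have hs : 1 ≤ Real.log P / x := by rwa [one_le_div hx]
  set s : ℝ := Real.log P / x with hsd
  have hs0 : 0 < s := by linarith
  have hxs : x * s = Real.log P := by
    rw [hsd]
    field_simp
  set U : Finset (HeightOneSpectrum (𝓞 K)) := Finset.univ.biUnion S with hU
  have hlow := hM U Q' (prod_union S Q hQ1 fun i => (hDat i).prod_le) hQ'1 s x hs0 hx.le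
  rw [hxs, Real.exp_log hPpos] at hlow
  set bd : HeightOneSpectrum (𝓞 K) → Finset (Fin r) := fun v =>
    Finset.univ.filter fun i => 2 ≤ ‖∑ j, α i v j‖ with hbd
  set T : Finset (HeightOneSpectrum (𝓞 K)) := ((PP K P).filter fun v => v ∉ U).filter fun v => (bd v).card < m with hT
  set T' : Finset (HeightOneSpectrum (𝓞 K)) :=
    ((PP K P).filter fun v => v ∉ U).filter fun v => ¬ (bd v).card < m with hT'
  have hTP : T ⊆ PP K P := (Finset.filter_subset _ _).trans (Finset.filter_subset _ _)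
  have hmemU : ∀ v, v ∉ U → ∀ i, v ∉ S i := fun v hv i hi => hv (Finset.mem_biUnion.2 ⟨i, Finset.mem_univ _, hi⟩)
  refine ⟨T, hP0 P ((le_max_left _ _).trans hPA) T hTP ?_, fun v hv => ?_⟩
  swap
  · have h1 := Finset.mem_filter.1 hv
    have h2 := Finset.mem_filter.1 h1.1
    exact ⟨mem_PP'.1 h2.1, hmemU v h2.2, h1.2⟩
  have hsplit := Finset.sum_filter_add_sum_filter_not ((PP K P).filter fun v => v ∉ U) (fun v => (bd v).card < m)
    (fun v => wt s v)
  rw [← hT, ← hT'] at hsplit
  -- the bad places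
  have hbad : m * ∑ v ∈ T', wt s v ≤
      r * ((1 / 35 + ε) * (κ₀ * s)) + (69 / 350 + ε) * Real.log Q' + r * A₁ := by
    calc m * ∑ v ∈ T', wt s v ≤ ∑ v ∈ T', ((bd v).card : ℝ) * wt s v := by
          rw [Finset.mul_sum]
          refine Finset.sum_le_sum fun v hv => mul_le_mul_of_nonneg_right ?_ (wt_nonneg s v)
          exact_mod_cast not_lt.1 (Finset.mem_filter.1 hv).2
      _ = ∑ v ∈ T', ∑ i, (if 2 ≤ ‖∑ j, α i v j‖ then wt s v else 0) := by
          refine Finset.sum_congr rfl fun v _ => ?_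
          rw [← Finset.sum_filter, Finset.sum_const, nsmul_eq_mul]
      _ = ∑ i, ∑ v ∈ T'.filter (fun v => 2 ≤ ‖∑ j, α i v j‖), wt s v := by
          rw [Finset.sum_comm]
          exact Finset.sum_congr rfl fun i _ => (Finset.sum_filter _ _).symm
      _ ≤ ∑ i, ((1 / 35 + ε) * (κ₀ * s) + (69 / 350 + ε) * Real.log (Q i) + A₁) := by
          refine Finset.sum_le_sum fun i _ => ?_
          refine hB1 (S i) (α i) (Q i) (hDat i) s hs _ fun v hv => ?_
          have h1 := Finset.mem_filter.1 hv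
          have h2 := Finset.mem_filter.1 (Finset.mem_filter.1 h1.1).1
          exact ⟨hmemU v h2.2 i, h1.2⟩
      _ = _ := by
          rw [Finset.sum_add_distrib, Finset.sum_add_distrib, Finset.sum_const, Finset.sum_const, Finset.card_univ,
            Fintype.card_fin, nsmul_eq_mul, nsmul_eq_mul, ← Finset.mul_sum, hlQ]
  have hTw : ∑ v ∈ T, wt s v ≤ ∑ v ∈ T, Real.log (Nv v) / Nv v := Finset.sum_le_sum fun v _ => wt_le v
  have hQs : Real.log Q' ≤ s * (x / c) := by
    have h1 : Real.log Q' ≤ Real.log P / c := by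
      rw [le_div_iff₀ hc0]
      linarith
    refine h1.trans (le_of_eq ?_)
    rw [← hxs]
    ring
  have h1 : m * (s * II x - ε * (κ₀ * s) - ε * Real.log Q' - A₀) ≤ m * (∑ v ∈ T, wt s v + ∑ v ∈ T', wt s v) :=
    mul_le_mul_of_nonneg_left (hlow.trans hsplit.ge) hm0.le
  have h2 : (69 / 350 + ε * (1 + m)) * Real.log Q' ≤ (69 / 350 + ε * (1 + m)) * (s * (x / c)) :=
    mul_le_mul_of_nonneg_left hQs (by positivity)
  have h3 : s * (gap / 2) - (m * A₀ + r * A₁) ≤ m * ∑ v ∈ T, wt s v := by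
    have e1 : s * (gap / 2) = s * gap - s * (ε * W) := by
      rw [hεW]
      ring
    have e2 : s * gap = s * (m * II x) - s * (r * κ₀ / 35) - 69 / 350 * (s * (x / c)) := by
      rw [hgapd, hDd]
      ring
    have e3 : s * (ε * W) = ε * (m + r) * (κ₀ * s) + ε * (1 + m) * (s * (x / c)) := by
      rw [hW]
      ring
    rw [e1, e2, e3]
    linarith
  have h4 : gap / (2 * x * m) * Real.log P - (m * A₀ + r * A₁) / m =
      (s * (gap / 2) - (m * A₀ + r * A₁)) / m := by
    rw [← hxs]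
    field_simp
  rw [h4, div_le_iff₀ hm0]
  have h5 := mul_le_mul_of_nonneg_left hTw hm0.le
  linarith

end Pool.Agent.U985.UW
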