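import Pool.Agent.U985.UW.Many

/-! Numerical values. -/

set_option autoImplicit false

namespace Pool.Agent.U985.UW

open MeasureTheory Filter Topology
open Pool.Agent.U985.UT (II II_tendsto II_ge sqrt_pi_half)

theorem II_step {x y : ℝ} (hx : 0 < x) (hxy : x ≤ y) : II y - II x ≤ Real.exp (-x ^ 2 / 2) / x := by
  have hint : ∀ a b : ℝ, IntervalIntegrable (fun t : ℝ => Real.exp (-t ^ 2 / 2)) volume a b := fun a b =>
    Continuous.intervalIntegrable (by fun_prop) a b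
  have h1 : II y - II x = ∫ t in x..y, Real.exp (-t ^ 2 / 2) := by
    unfold II
    rw [intervalIntegral.integral_interval_sub_left (hint 0 y) (hint 0 x)]
  have h2 : ∫ t in x..y, t * Real.exp (-t ^ 2 / 2) = Real.exp (-x ^ 2 / 2) - Real.exp (-y ^ 2 / 2) := by
    have h3 : ∀ t ∈ Set.uIcc x y, HasDerivAt (fun t : ℝ => -Real.exp (-t ^ 2 / 2)) (t * Real.exp (-t ^ 2 / 2)) t := by
      intro t _
      have h4 : HasDerivAt (fun t : ℝ => -t ^ 2 / 2) (-t) t := by
        have := ((hasDerivAt_pow 2 t).neg.div_const 2)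
        refine this.congr_deriv ?_
        norm_num
        ring
      refine h4.exp.neg.congr_deriv ?_
      ring
    rw [intervalIntegral.integral_eq_sub_of_hasDerivAt h3 (Continuous.intervalIntegrable (by fun_prop) _ _)]
    ring
  have h3 : x * ∫ t in x..y, Real.exp (-t ^ 2 / 2) ≤ ∫ t in x..y, t * Real.exp (-t ^ 2 / 2) := by
    rw [← intervalIntegral.integral_const_mul]
    refine intervalIntegral.integral_mono_on hxy ((hint x y).const_mul x)
      (Continuous.intervalIntegrable (by fun_prop) _ _) fun t ht => ?_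
    exact mul_le_mul_of_nonneg_right ht.1 (Real.exp_pos _).le
  rw [h1, le_div_iff₀ hx]
  rw [h2] at h3
  have := Real.exp_pos (-y ^ 2 / 2)
  linarith

theorem II_tail {x : ℝ} (hx : 0 < x) : √(Real.pi / 2) - Real.exp (-x ^ 2 / 2) / x ≤ II x := by
  have h1 : √(Real.pi / 2) ≤ II x + Real.exp (-x ^ 2 / 2) / x := by
    refine le_of_tendsto II_tendsto ?_
    filter_upwards [eventually_ge_atTop x] with y hy
    linarith [II_step hx hy]
  linarith

theorem sqrt_pi_half_ge : 1.2533 ≤ √(Real.pi / 2) := by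
  refine Real.le_sqrt_of_sq_le ?_
  have := Real.pi_gt_d6
  norm_num at this ⊢
  linarith

/-- one character -/
theorem c_one : 0 < ((1 : ℕ) : ℝ) * II (1 / 2) - ((1 : ℕ) : ℝ) * √(Real.pi / 2) / 35 ∧
    69 / 350 * (1 / 2) / (((1 : ℕ) : ℝ) * II (1 / 2) - ((1 : ℕ) : ℝ) * √(Real.pi / 2) / 35) < 111 / 500 := by
  have h1 := II_ge (x := 1 / 2) (by norm_num)
  have h2 := sqrt_pi_half
  have h3 : 0.4441 ≤ ((1 : ℕ) : ℝ) * II (1 / 2) - ((1 : ℕ) : ℝ) * √(Real.pi / 2) / 35 := by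
    norm_num at h1 h2 ⊢
    linarith
  refine ⟨by linarith, ?_⟩
  rw [div_lt_iff₀ (by linarith)]
  norm_num at h3 ⊢
  linarith

theorem exp_neg_half : Real.exp (-(3 : ℝ) ^ 2 / 2) ≤ 0.0113 := by
  have h1 : (2.7 : ℝ) ≤ Real.exp 1 := by
    have := Real.exp_one_gt_d9
    norm_num at this ⊢
    linarith
  have h2 : (88.6 : ℝ) ≤ Real.exp (3 ^ 2 / 2) := by
    have h3 : Real.exp (3 ^ 2 / 2) ^ 2 = Real.exp 1 ^ 9 := by
      rw [← Real.exp_nat_mul, ← Real.exp_nat_mul]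
      congr 1
      norm_num
    have h4 : (88.6 : ℝ) ^ 2 ≤ Real.exp (3 ^ 2 / 2) ^ 2 := by
      rw [h3]
      have h5 : (2.718 : ℝ) ≤ Real.exp 1 := by
        have := Real.exp_one_gt_d9
        norm_num at this ⊢
        linarith
      calc (88.6 : ℝ) ^ 2 ≤ 2.718 ^ 9 := by norm_num
        _ ≤ _ := pow_le_pow_left₀ (by norm_num) h5 9
    exact le_of_sq_le_sq h4 (Real.exp_pos _).le
  rw [neg_div, Real.exp_neg]
  calc (Real.exp (3 ^ 2 / 2))⁻¹ ≤ (88.6 : ℝ)⁻¹ := inv_anti₀ (by norm_num) h2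
    _ ≤ _ := by norm_num

/-- up to `34` characters -/
theorem c_many {r : ℕ} (hr : r ≤ 34) : 0 < ((1 : ℕ) : ℝ) * II 3 - (r : ℝ) * √(Real.pi / 2) / 35 ∧
    69 / 350 * 3 / (((1 : ℕ) : ℝ) * II 3 - (r : ℝ) * √(Real.pi / 2) / 35) < 19 := by
  have h1 := II_tail (x := 3) (by norm_num)
  have h2 := sqrt_pi_half_ge
  have h3 := exp_neg_half
  have hr' : (r : ℝ) ≤ 34 := by exact_mod_cast hr
  generalize hκ : √(Real.pi / 2) = κ₀ at h1 h2 ⊢
  generalize hE : Real.exp (-(3 : ℝ) ^ 2 / 2) = E at h1 h3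
  have hκ0 : 0 ≤ κ₀ := by linarith
  have h4 : (r : ℝ) * κ₀ / 35 ≤ 34 * κ₀ / 35 := by
    have := mul_le_mul_of_nonneg_right hr' hκ0
    linarith
  have h5 : 0.032 ≤ ((1 : ℕ) : ℝ) * II 3 - (r : ℝ) * κ₀ / 35 := by
    rw [Nat.cast_one, one_mul]
    linarith
  refine ⟨by linarith, ?_⟩
  rw [div_lt_iff₀ (by linarith)]
  norm_num at h5 ⊢
  linarith

/-- the law of large numbers -/
theorem c_exists {r m : ℕ} (h : r < 35 * m) : ∃ x c : ℝ, 0 < x ∧ 0 < m * II x - r * √(Real.pi / 2) / 35 ∧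
    69 / 350 * x / (m * II x - r * √(Real.pi / 2) / 35) < c ∧ 0 < c := by
  have hκ : 0 < √(Real.pi / 2) := Real.sqrt_pos.2 (by positivity)
  have h1 : Tendsto (fun x => (m : ℝ) * II x - r * √(Real.pi / 2) / 35) atTop
      (𝓝 (m * √(Real.pi / 2) - r * √(Real.pi / 2) / 35)) := (II_tendsto.const_mul _).sub_const _
  have h2 : 0 < (m : ℝ) * √(Real.pi / 2) - r * √(Real.pi / 2) / 35 := by
    have h3 : (r : ℝ) < 35 * m := by exact_mod_cast h
    have := mul_lt_mul_of_pos_right h3 hκ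
    linarith
  obtain ⟨x, hx1, hx2⟩ := ((h1.eventually (lt_mem_nhds h2)).and (eventually_gt_atTop (0 : ℝ))).exists
  refine ⟨x, 69 / 350 * x / (m * II x - r * √(Real.pi / 2) / 35) + 1, hx2, hx1, by linarith, by positivity⟩

end Pool.Agent.U985.UW
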