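import Pool.Agent.U985.UI.ManyI
import Pool.Agent.U985.UT.SymSq

/-! Symmetric powers up to the fourth: the places where a representation of `GL_2` is not tempered. -/

set_option autoImplicit false

namespace Pool.Agent.U985.UW

open MeasureTheory Filter Topology NumberField IsDedekindDomain
open Pool.Agent.N846.DU
open Pool.Agent.U985.UT (II II_scale II_tendsto)
open Pool.Agent.N753.LS (PP mem_PP)
open Pool.Agent.U985.UK (mert_gaussK' mem_PP' sum_set_le' count_of_massK' primeU)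
open Pool.Agent.U985.UI (primeI)

/-- the Satake parameters of `Π_k = Sym^k π ⊗ ω^{-⌊k/2⌋}` -/
noncomputable def symP (k : ℕ) (a : Fin 2 → ℂ) (j : Fin (k + 1)) : ℂ :=
  a 0 ^ (k - (j : ℕ)) * a 1 ^ (j : ℕ) / (a 0 * a 1) ^ (k / 2)

section traces

variable {a : Fin 2 → ℂ}

theorem conj_trace (h0 : ∀ i, a i ≠ 0)
    (hU : ∃ τ : Equiv.Perm (Fin 2), ∀ i, a (τ i) = ((starRingEnd ℂ) (a i))⁻¹) :
    (starRingEnd ℂ) (a 0 + a 1) * (a 0 * a 1) = a 0 + a 1 := by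
  obtain ⟨τ, hτ⟩ := hU
  have h1 : (starRingEnd ℂ) (∑ i, a i) = ∑ i, (a i)⁻¹ := by
    rw [map_sum, ← Equiv.sum_comp τ fun i => (a i)⁻¹]
    refine Finset.sum_congr rfl fun i _ => ?_
    rw [hτ, inv_inv]
  rw [Fin.sum_univ_two, Fin.sum_univ_two] at h1
  rw [h1]
  have := h0 0
  have := h0 1
  field_simp
  ring

theorem sq_trace (h0 : ∀ i, a i ≠ 0)
    (hU : ∃ τ : Equiv.Perm (Fin 2), ∀ i, a (τ i) = ((starRingEnd ℂ) (a i))⁻¹) :
    (a 0 + a 1) ^ 2 = ((‖a 0 + a 1‖ ^ 2 : ℝ) : ℂ) * (a 0 * a 1) := by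
  have h1 := conj_trace h0 hU
  have h2 : ((‖a 0 + a 1‖ ^ 2 : ℝ) : ℂ) = (a 0 + a 1) * (starRingEnd ℂ) (a 0 + a 1) := by
    rw [Complex.mul_conj, Complex.normSq_eq_norm_sq]
  rw [h2]
  linear_combination (-(a 0 + a 1)) * h1

theorem tr0 : ∑ j, symP 0 a j = 1 := by
  simp [symP]

theorem tr1 : ∑ j, symP 1 a j = a 0 + a 1 := by
  simp [symP, Fin.sum_univ_two]

theorem tr2 (h0 : ∀ i, a i ≠ 0)
    (hU : ∃ τ : Equiv.Perm (Fin 2), ∀ i, a (τ i) = ((starRingEnd ℂ) (a i))⁻¹) :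
    ∑ j, symP 2 a j = ((‖a 0 + a 1‖ ^ 2 - 1 : ℝ) : ℂ) := by
  have h1 := sq_trace h0 hU
  have h2 : a 0 * a 1 ≠ 0 := mul_ne_zero (h0 0) (h0 1)
  have h3 : ∑ j, symP 2 a j = (a 0 ^ 2 + a 0 * a 1 + a 1 ^ 2) / (a 0 * a 1) := by
    simp [symP, Fin.sum_univ_succ]
    ring
  rw [h3, div_eq_iff h2]
  push_cast at h1 ⊢
  linear_combination h1

theorem tr3 (h0 : ∀ i, a i ≠ 0)
    (hU : ∃ τ : Equiv.Perm (Fin 2), ∀ i, a (τ i) = ((starRingEnd ℂ) (a i))⁻¹) :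
    ∑ j, symP 3 a j = (a 0 + a 1) * ((‖a 0 + a 1‖ ^ 2 - 2 : ℝ) : ℂ) := by
  have h1 := sq_trace h0 hU
  have h2 : a 0 * a 1 ≠ 0 := mul_ne_zero (h0 0) (h0 1)
  have h3 : ∑ j, symP 3 a j = (a 0 ^ 3 + a 0 ^ 2 * a 1 + a 0 * a 1 ^ 2 + a 1 ^ 3) / (a 0 * a 1) := by
    simp [symP, Fin.sum_univ_succ]
    ring
  rw [h3, div_eq_iff h2]
  push_cast at h1 ⊢
  linear_combination (a 0 + a 1) * h1

theorem tr4 (h0 : ∀ i, a i ≠ 0)
    (hU : ∃ τ : Equiv.Perm (Fin 2), ∀ i, a (τ i) = ((starRingEnd ℂ) (a i))⁻¹) :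
    ∑ j, symP 4 a j = (((‖a 0 + a 1‖ ^ 2) ^ 2 - 3 * ‖a 0 + a 1‖ ^ 2 + 1 : ℝ) : ℂ) := by
  have h1 := sq_trace h0 hU
  have h2 : (a 0 * a 1) ^ 2 ≠ 0 := pow_ne_zero _ (mul_ne_zero (h0 0) (h0 1))
  have h3 : ∑ j, symP 4 a j = (a 0 ^ 4 + a 0 ^ 3 * a 1 + a 0 ^ 2 * a 1 ^ 2 + a 0 * a 1 ^ 3 + a 1 ^ 4) /
      (a 0 * a 1) ^ 2 := by
    simp [symP, Fin.sum_univ_succ]
    ring
  rw [h3, div_eq_iff h2]
  push_cast at h1 ⊢
  linear_combination ((a 0 + a 1) ^ 2 + (‖a 0 + a 1‖ : ℂ) ^ 2 * (a 0 * a 1) - 3 * (a 0 * a 1)) * h1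

end traces

theorem symP_one (a : Fin 2 → ℂ) : symP 1 a = a := by
  funext j
  fin_cases j <;> simp [symP]

/-- A representation of `GL_2` whose symmetric powers up to the fourth are cuspidal, of level `Q`. -/
structure Dat {K : Type} [Field K] [NumberField K] (N₀ : ℕ) (B : ℝ) (S : Finset (HeightOneSpectrum (𝓞 K)))
    (α : HeightOneSpectrum (𝓞 K) → Fin 2 → ℂ) (Q : ℝ) : Prop where
  one_le : 1 ≤ Q
  prod_le : ∏ v ∈ S, Nv v ≤ Q
  ex : ∃ (N : Fin 5 → Fin 5 → ℕ) (u : Fin 5 → VX K → ℂ) (q : Fin 5 → Fin 5 → ℝ) (κ : ∀ i j, Fin (N i j) → ℂ),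
    (∀ i j, N i j ≤ N₀) ∧ (∀ k : Fin 5, Rep ((k : ℕ) + 1) S (fun v => symP k (α v)) (u k)) ∧
    (∀ i j, RS (u i) (u j) (q i j) (κ i j) (if i = j then 1 else 0)) ∧
    ∀ i j : Fin 5, q i j * ∏ l, (1 + ‖κ i j l‖) ≤ B * Q ^ (max (i : ℕ) j * (min (i : ℕ) j + 1))

/-- the weight -/
noncomputable def wt {K : Type} [Field K] [NumberField K] (s : ℝ) (v : HeightOneSpectrum (𝓞 K)) : ℝ :=
  Real.log (Nv v) / Nv v * Real.exp (-(Real.log (Nv v)) ^ 2 / (2 * s ^ 2))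

theorem wt_nonneg {K : Type} [Field K] [NumberField K] (s : ℝ) (v : HeightOneSpectrum (𝓞 K)) : 0 ≤ wt s v :=
  mul_nonneg (div_nonneg (Pool.Agent.U828.DU.D.log_Nv_pos v).le (Pool.Agent.U828.DU.D.Nv_pos v).le)
    (Real.exp_pos _).le

theorem wt_le {K : Type} [Field K] [NumberField K] {s : ℝ} (v : HeightOneSpectrum (𝓞 K)) :
    wt s v ≤ Real.log (Nv v) / Nv v :=
  mul_le_of_le_one_right (div_nonneg (Pool.Agent.U828.DU.D.log_Nv_pos v).le (Pool.Agent.U828.DU.D.Nv_pos v).le)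
    (Real.exp_le_one_iff.2 (by
      rw [neg_div]
      exact neg_nonpos.2 (by positivity)))

theorem sum_S_le {K : Type} [Field K] [NumberField K] {η C : ℝ} (hη : 0 < η)
    (h : ∀ G : Finset (HeightOneSpectrum (𝓞 K)),
      ∑ v ∈ G, Real.log (Nv v) / Nv v ≤ η * ∑ v ∈ G, Real.log (Nv v) + C)
    {S : Finset (HeightOneSpectrum (𝓞 K))} {Q : ℝ} (hS : ∏ v ∈ S, Nv v ≤ Q) (s : ℝ) :
    ∑ v ∈ S, wt s v ≤ η * Real.log Q + C := by
  refine (Finset.sum_le_sum fun v _ => wt_le v).trans ((h S).trans ?_)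
  have h1 : ∑ v ∈ S, Real.log (Nv v) ≤ Real.log Q := by
    rw [← Real.log_prod fun v _ => (Pool.Agent.U828.DU.D.Nv_pos v).ne']
    exact Real.log_le_log (Finset.prod_pos fun v _ => Pool.Agent.U828.DU.D.Nv_pos v) hS
  have := mul_le_mul_of_nonneg_left h1 hη.le
  linarith

open scoped Classical in
/-- lower bound for the mass of all places outside `S`, for all large cutoffs -/
theorem mass_low (K : Type) [Field K] [NumberField K] {η : ℝ} (hη : 0 < η) : ∃ A : ℝ, 0 ≤ A ∧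
    ∀ (S : Finset (HeightOneSpectrum (𝓞 K))) (Q : ℝ), ∏ v ∈ S, Nv v ≤ Q → 1 ≤ Q → ∀ s x : ℝ, 0 < s → 0 ≤ x →
      s * II x - η * (√(Real.pi / 2) * s) - η * Real.log Q - A ≤
        ∑ v ∈ (PP K (Real.exp (x * s))).filter (fun v => v ∉ S), wt s v := by
  set η' : ℝ := min 1 η with hη'
  have h0 : 0 < η' := lt_min one_pos hη
  have h1 : η' ≤ 1 := min_le_left _ _
  obtain ⟨A₀, hA0, hG⟩ := mert_gaussK' K h0 h1
  obtain ⟨C₁, hC1, hbad⟩ := sum_set_le' K hη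
  refine ⟨A₀ + C₁, by linarith, fun S Q hS hQ s x hs hx => ?_⟩
  have hP1 : 1 ≤ Real.exp (x * s) := Real.one_le_exp (by positivity)
  have g := hG s hs _ hP1
  rw [II_scale hs, Real.log_exp, mul_div_assoc, div_self hs.ne', mul_one] at g
  change (1 - η') * (s * II x) - A₀ ≤ ∑ v ∈ PP K (Real.exp (x * s)), wt s v at g
  have h2 := Finset.sum_filter_add_sum_filter_not (PP K (Real.exp (x * s))) (fun v => v ∉ S) (fun v => wt s v)
  have h3 : ∑ v ∈ (PP K (Real.exp (x * s))).filter (fun v => ¬ v ∉ S), wt s v ≤ η * Real.log Q + C₁ := by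
    refine le_trans ?_ (sum_S_le hη hbad hS s)
    exact Finset.sum_le_sum_of_subset_of_nonneg (fun v hv => not_not.1 (Finset.mem_filter.1 hv).2)
      fun v _ _ => wt_nonneg s v
  have hII : II x ≤ √(Real.pi / 2) := by
    refine ge_of_tendsto II_tendsto ?_
    filter_upwards [eventually_ge_atTop x] with y hy
    unfold II
    refine intervalIntegral.integral_mono_interval le_rfl hx hy
      (Filter.Eventually.of_forall fun t => (Real.exp_pos _).le) ?_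
    exact (Continuous.intervalIntegrable (by fun_prop) _ _)
  have h4 : η' * (s * II x) ≤ η * (√(Real.pi / 2) * s) := by
    have hII0 : 0 ≤ II x := by
      unfold II
      exact intervalIntegral.integral_nonneg hx fun t _ => (Real.exp_pos _).le
    calc η' * (s * II x) ≤ η * (s * II x) := mul_le_mul_of_nonneg_right (min_le_right _ _) (by positivity)
      _ ≤ η * (s * √(Real.pi / 2)) :=
          mul_le_mul_of_nonneg_left (mul_le_mul_of_nonneg_left hII hs.le) hη.le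
      _ = _ := by ring
  linarith

/-- the identity behind `34/35` -/
theorem quad (t : ℝ) : (1 + 3 * (t - 1) + 5 * (t ^ 2 - 3 * t + 1)) ^ 2 + 40 =
    6 * t + 9 * (t - 1) ^ 2 + 30 * (t * (t - 2) ^ 2) + 20 * (t ^ 2 - 3 * t + 1) ^ 2 +
      5 * (1 + (t ^ 2 - 3 * t + 1)) ^ 2 := by ring

theorem quad_bad {t : ℝ} (ht : 4 ≤ t) : 1225 ≤ (1 + 3 * (t - 1) + 5 * (t ^ 2 - 3 * t + 1)) ^ 2 := by
  have h1 : 35 ≤ 1 + 3 * (t - 1) + 5 * (t ^ 2 - 3 * t + 1) := by nlinarith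
  nlinarith

open scoped Classical in
/-- **the mass of the places which are not tempered** -/
theorem bad_one (K : Type) [Field K] [NumberField K] (N₀ : ℕ) {B ε : ℝ} (hB : 1 ≤ B) (hε : 0 < ε) :
    ∃ A : ℝ, 0 ≤ A ∧ ∀ (S : Finset (HeightOneSpectrum (𝓞 K))) (α : HeightOneSpectrum (𝓞 K) → Fin 2 → ℂ) (Q : ℝ),
      Dat N₀ B S α Q → ∀ s : ℝ, 1 ≤ s → ∀ G : Finset (HeightOneSpectrum (𝓞 K)),
      (∀ v ∈ G, v ∉ S ∧ 2 ≤ ‖∑ i, α v i‖) →
      ∑ v ∈ G, wt s v ≤ (1 / 35 + ε) * (√(Real.pi / 2) * s) + (69 / 350 + ε) * Real.log Q + A := by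
  obtain ⟨A₂, hA2, hB2⟩ := primeU K 5 N₀ hε
  obtain ⟨A₃, hA3, hB3⟩ := primeI K 2 5 N₀ (by norm_num) hε
  obtain ⟨A₀, hA0, hM⟩ := mass_low K hε
  have hlB : 0 ≤ Real.log B := Real.log_nonneg hB
  refine ⟨65 * A₂ + 5 * A₃ + 40 * A₀ + 85 * (1 / 4 + ε) * Real.log B, by positivity,
    fun S α Q hD s hs G hG => ?_⟩
  have hs0 : 0 < s := by linarith
  have hQ0 : 0 < Q := by linarith [hD.one_le]
  have hlQ : 0 ≤ Real.log Q := Real.log_nonneg hD.one_le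
  obtain ⟨N, u, q, κ, hN, hrep, hrs, hcond⟩ := hD.ex
  set κ₀ : ℝ := √(Real.pi / 2) with hκ₀
  have hκ0 : 0 < κ₀ := Real.sqrt_pos.2 (by positivity)
  -- the conductors
  have hC1 : ∀ i j, 1 ≤ q i j * ∏ l, (1 + ‖κ i j l‖) := fun i j =>
    one_le_mul_of_one_le_of_one_le (hrs i j).one_le (Finset.one_le_prod fun l _ => by
      linarith [norm_nonneg (κ i j l)])
  have hL : ∀ i j : Fin 5, Real.log (q i j * ∏ l, (1 + ‖κ i j l‖)) ≤
      Real.log B + ((max (i : ℕ) j * (min (i : ℕ) j + 1) : ℕ) : ℝ) * Real.log Q := by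
    intro i j
    have h1 := Real.log_le_log (by linarith [hC1 i j]) (hcond i j)
    have hB0 : B ≠ 0 := by linarith
    rwa [Real.log_mul hB0 (pow_ne_zero _ hQ0.ne'), Real.log_pow] at h1
  -- the cutoff
  have hlim : ∀ᶠ x : ℝ in atTop, (1 - ε) * κ₀ ≤ II x := by
    refine II_tendsto.eventually (Ici_mem_nhds ?_)
    nlinarith
  obtain ⟨x, ⟨hx1, hx2⟩, hx3⟩ := ((hlim.and (eventually_ge_atTop (Real.log (∑ v ∈ G, Nv v + 1)))).and
    (eventually_ge_atTop (0 : ℝ))).exists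
  set T : Finset (HeightOneSpectrum (𝓞 K)) := (PP K (Real.exp (x * s))).filter (fun v => v ∉ S) with hT
  have hTS : ∀ v ∈ T, v ∉ S := fun v hv => (Finset.mem_filter.1 hv).2
  have hsum0 : 0 ≤ ∑ v ∈ G, Nv v := Finset.sum_nonneg fun v _ => (Pool.Agent.U828.DU.D.Nv_pos v).le
  have hGT : G ⊆ T := by
    intro v hv
    rw [hT, Finset.mem_filter]
    refine ⟨mem_PP'.2 ?_, (hG v hv).1⟩
    have h1 : Nv v ≤ ∑ v ∈ G, Nv v := Finset.single_le_sum (fun v _ => (Pool.Agent.U828.DU.D.Nv_pos v).le) hv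
    calc Nv v ≤ ∑ v ∈ G, Nv v + 1 := by linarith
      _ = Real.exp (Real.log (∑ v ∈ G, Nv v + 1)) := (Real.exp_log (by linarith)).symm
      _ ≤ Real.exp x := Real.exp_le_exp.2 hx2
      _ ≤ Real.exp (x * s) := Real.exp_le_exp.2 (le_mul_of_one_le_right hx3 hs)
  have hlow := hM S Q hD.prod_le hD.one_le s x hs0 hx3
  rw [← hT] at hlow
  -- traces
  have hne : ∀ v ∉ S, ∀ i, α v i ≠ 0 := fun v hv i => by
    have := (hrep 1).ne_zero v hv i
    simpa [symP_one] using this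
  have hun : ∀ v ∉ S, ∃ τ : Equiv.Perm (Fin 2), ∀ i, α v (τ i) = ((starRingEnd ℂ) (α v i))⁻¹ := fun v hv => by
    have := (hrep 1).unitary v hv
    simpa [symP_one] using this
  set t : HeightOneSpectrum (𝓞 K) → ℝ := fun v => ‖α v 0 + α v 1‖ ^ 2 with ht
  have e1 : ∀ v ∉ S, ‖∑ j, symP 1 (α v) j‖ ^ 2 = t v := fun v hv => by rw [tr1]
  have e2 : ∀ v ∉ S, ‖∑ j, symP 2 (α v) j‖ ^ 2 = (t v - 1) ^ 2 := fun v hv => by
    rw [tr2 (hne v hv) (hun v hv), Complex.norm_real, Real.norm_eq_abs, sq_abs]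
  have e3 : ∀ v ∉ S, ‖∑ j, symP 3 (α v) j‖ ^ 2 = t v * (t v - 2) ^ 2 := fun v hv => by
    rw [tr3 (hne v hv) (hun v hv), norm_mul, mul_pow, Complex.norm_real, Real.norm_eq_abs, sq_abs]
  have e4 : ∀ v ∉ S, ‖∑ j, symP 4 (α v) j‖ ^ 2 = (t v ^ 2 - 3 * t v + 1) ^ 2 := fun v hv => by
    rw [tr4 (hne v hv) (hun v hv), Complex.norm_real, Real.norm_eq_abs, sq_abs]
  have e5 : ∀ v ∉ S, ‖∑ j, symP 0 (α v) j + ∑ j, symP 4 (α v) j‖ ^ 2 = (1 + (t v ^ 2 - 3 * t v + 1)) ^ 2 :=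
    fun v hv => by
    rw [tr0, tr4 (hne v hv) (hun v hv), ← Complex.ofReal_one, ← Complex.ofReal_add, Complex.norm_real,
      Real.norm_eq_abs, sq_abs]
  have hself : ∀ k : Fin 5, RS (u k) (u k) (q k k) (κ k k) 1 := fun k => by simpa using hrs k k
  -- the five inequalities
  have key : ∀ k : Fin 5, ∑ v ∈ T, ‖∑ j, symP k (α v) j‖ ^ 2 * wt s v ≤
      κ₀ * s + (1 / 4 + ε) * (Real.log B + ((k : ℕ) * ((k : ℕ) + 1) : ℝ) * Real.log Q) + A₂ := by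
    intro k
    have h1 := hB2 ((k : ℕ) + 1) (N k k) (by omega) (hN k k) S (fun v => symP k (α v)) (u k) (q k k) (κ k k)
      (hrep k) (hself k) s hs T hTS
    have h2 := mul_le_mul_of_nonneg_left (hL k k) (show 0 ≤ 1 / 4 + ε by positivity)
    rw [max_self, min_self] at h2
    push_cast at h2
    refine le_trans (le_of_eq ?_) (h1.trans (by linarith))
    refine Finset.sum_congr rfl fun v _ => ?_
    unfold wt
    ring
  let e : Fin 2 → Fin 5 := ![0, 4]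
  have he : ∀ i j : Fin 2, e i = e j ↔ i = j := by decide
  have key5 : ∑ v ∈ T, (1 + (t v ^ 2 - 3 * t v + 1)) ^ 2 * wt s v ≤
      2 * (κ₀ * s) + (1 / 4 + ε) * (4 * Real.log B + 28 * Real.log Q) + A₃ := by
    have h1 := hB3 (fun i => (e i : ℕ) + 1) (fun i j => N (e i) (e j)) (fun i => by have := (e i).2; omega)
      (fun i j => hN _ _) S (fun i v => symP (e i) (α v)) (fun i => u (e i)) (fun i j => q (e i) (e j))
      (fun i j => κ (e i) (e j)) (fun i => hrep (e i)) (fun i j => by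
        have h2 := hrs (e i) (e j)
        rwa [show (if e i = e j then 1 else 0) = (if i = j then 1 else 0) from by simp only [he]] at h2) s hs T hTS
    have h2 : Real.log (∏ i : Fin 2, ∏ j : Fin 2, (q (e i) (e j) * ∏ l, (1 + ‖κ (e i) (e j) l‖))) ≤
        4 * Real.log B + 28 * Real.log Q := by
      have hp : ∀ i j, 0 < q i j * ∏ l, (1 + ‖κ i j l‖) := fun i j => by linarith [hC1 i j]
      rw [Real.log_prod fun i _ => (Finset.prod_pos fun j _ => hp (e i) (e j)).ne', Fin.sum_univ_two,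
        Real.log_prod fun j _ => (hp (e 0) (e j)).ne', Real.log_prod fun j _ => (hp (e 1) (e j)).ne',
        Fin.sum_univ_two, Fin.sum_univ_two]
      have l1 := hL (e 0) (e 0)
      have l2 := hL (e 0) (e 1)
      have l3 := hL (e 1) (e 0)
      have l4 := hL (e 1) (e 1)
      have f0 : ((e 0 : Fin 5) : ℕ) = 0 := rfl
      have f1 : ((e 1 : Fin 5) : ℕ) = 4 := rfl
      rw [f0] at l1
      rw [f0, f1] at l2 l3
      rw [f1] at l4
      norm_num at l1 l2 l3 l4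
      linarith
    refine le_trans (le_of_eq ?_) (h1.trans ?_)
    · refine Finset.sum_congr rfl fun v hv => ?_
      have h3 := e5 v (hTS v hv)
      have h4 : ∑ i : Fin 2, ∑ j, symP (e i) (α v) j = ∑ j, symP 0 (α v) j + ∑ j, symP 4 (α v) j := by
        rw [Fin.sum_univ_two]
        rfl
      rw [h4, h3]
      unfold wt
      ring
    · have := mul_le_mul_of_nonneg_left h2 (show 0 ≤ 1 / 4 + ε by positivity)
      push_cast
      linarith
  have k1 := key 1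
  have k2 := key 2
  have k3 := key 3
  have k4 := key 4
  rw [Finset.sum_congr rfl fun v hv => by rw [show ‖∑ j, symP (1 : Fin 5) (α v) j‖ ^ 2 = t v from e1 v (hTS v hv)]] at k1
  rw [Finset.sum_congr rfl fun v hv => by rw [show ‖∑ j, symP (2 : Fin 5) (α v) j‖ ^ 2 = (t v - 1) ^ 2 from
    e2 v (hTS v hv)]] at k2
  rw [Finset.sum_congr rfl fun v hv => by rw [show ‖∑ j, symP (3 : Fin 5) (α v) j‖ ^ 2 = t v * (t v - 2) ^ 2 from
    e3 v (hTS v hv)]] at k3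
  rw [Finset.sum_congr rfl fun v hv => by rw [show ‖∑ j, symP (4 : Fin 5) (α v) j‖ ^ 2 = (t v ^ 2 - 3 * t v + 1) ^ 2
    from e4 v (hTS v hv)]] at k4
  have f1 : (((1 : Fin 5) : ℕ) : ℝ) = 1 := by norm_num
  have f2 : (((2 : Fin 5) : ℕ) : ℝ) = 2 := by norm_num
  have f3 : (((3 : Fin 5) : ℕ) : ℝ) = 3 := by norm_num
  have f4 : (((4 : Fin 5) : ℕ) : ℝ) = 4 := by norm_num
  rw [f1] at k1
  rw [f2] at k2
  rw [f3] at k3
  rw [f4] at k4
  have hid : ∑ v ∈ T, (1 + 3 * (t v - 1) + 5 * (t v ^ 2 - 3 * t v + 1)) ^ 2 * wt s v + 40 * ∑ v ∈ T, wt s v =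
      6 * ∑ v ∈ T, t v * wt s v + 9 * ∑ v ∈ T, (t v - 1) ^ 2 * wt s v +
      30 * ∑ v ∈ T, t v * (t v - 2) ^ 2 * wt s v + 20 * ∑ v ∈ T, (t v ^ 2 - 3 * t v + 1) ^ 2 * wt s v +
      5 * ∑ v ∈ T, (1 + (t v ^ 2 - 3 * t v + 1)) ^ 2 * wt s v := by
    simp only [Finset.mul_sum]
    rw [← Finset.sum_add_distrib, ← Finset.sum_add_distrib, ← Finset.sum_add_distrib, ← Finset.sum_add_distrib,
      ← Finset.sum_add_distrib]
    refine Finset.sum_congr rfl fun v _ => ?_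
    linear_combination wt s v * quad (t v)
  have hbad : 1225 * ∑ v ∈ G, wt s v ≤
      ∑ v ∈ T, (1 + 3 * (t v - 1) + 5 * (t v ^ 2 - 3 * t v + 1)) ^ 2 * wt s v := by
    rw [Finset.mul_sum]
    refine (Finset.sum_le_sum fun v hv => ?_).trans (Finset.sum_le_sum_of_subset_of_nonneg hGT
      fun v _ _ => mul_nonneg (sq_nonneg _) (wt_nonneg s v))
    refine mul_le_mul_of_nonneg_right (quad_bad ?_) (wt_nonneg s v)
    have h1 := (hG v hv).2
    rw [Fin.sum_univ_two] at h1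
    simp only [ht]
    nlinarith
  have hII : s * ((1 - ε) * κ₀) ≤ s * II x := mul_le_mul_of_nonneg_left hx1 hs0.le
  have hκs : 0 ≤ κ₀ * s := by positivity
  have hεκ : 0 ≤ ε * (κ₀ * s) := by positivity
  have hεQ : 0 ≤ ε * Real.log Q := by positivity
  have hfin : 1225 * ∑ v ∈ G, wt s v ≤ 1225 * ((1 / 35 + ε) * (κ₀ * s) + (69 / 350 + ε) * Real.log Q +
      (65 * A₂ + 5 * A₃ + 40 * A₀ + 85 * (1 / 4 + ε) * Real.log B)) := by
    have hc : 0 ≤ 65 * A₂ + 5 * A₃ + 40 * A₀ + 85 * (1 / 4 + ε) * Real.log B := by positivity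
    nlinarith
  linarith

end Pool.Agent.U985.UW
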